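import Pool.Agent.Helper30.BG.Goals

/-!
# Project BG (MP_66e6f4_an), packet LEMS: sublinearity of superharmonic functions in a half-space
-/

open InnerProductSpace Metric Set Filter Topology
open scoped ContDiff Laplacian

namespace Pool.Agent.Helper19.BG

open Pool.Agent.Helper30.BG

theorem dist_sq_refl (y c : E3) : ‖y - refl 0 c‖ ^ 2 - ‖y - c‖ ^ 2 = 4 * y 0 * c 0 := by
  rw [norm_sq_eq, norm_sq_eq]
  simp only [PiLp.sub_apply, refl_zero, refl_one, refl_two]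
  ring

theorem cont_coord : Continuous (fun y : E3 => y 0) :=
  (EuclideanSpace.proj (0 : Fin 3) : E3 →L[ℝ] ℝ).continuous

theorem abs_coord (y : E3) : |y 0| ≤ ‖y‖ := by
  have h := norm_sq_eq y
  have h2 : |y 0| ^ 2 ≤ ‖y‖ ^ 2 := by
    rw [h, sq_abs]
    nlinarith [sq_nonneg (y 1), sq_nonneg (y 2)]
  exact (sq_le_sq₀ (abs_nonneg _) (norm_nonneg _)).1 h2

/-- comparison with a dipole -/
theorem comp_dip (mp : S_MP) {w : E3 → ℝ} (hw : ContDiff ℝ 2 w)
    (hsup : ∀ x : E3, 0 < x 0 → Δ w x ≤ 0) (hnn : ∀ x : E3, 0 ≤ x 0 → 0 ≤ w x)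
    {c : E3} {r A : ℝ} (hr : 0 < r) (hc : 0 < c 0) (hA : 0 ≤ A)
    (hb : ∀ y : E3, ‖y - c‖ ≤ r → A / r ≤ w y) {y : E3} (hy : 0 < y 0) (hyr : r < ‖y - c‖) :
    A * (‖y - c‖⁻¹ - ‖y - refl 0 c‖⁻¹) ≤ w y := by
  refine le_of_forall_pos_le_add fun ε hε => ?_
  set T : ℝ := ‖y - c‖ + A / ε + 1 with hT
  have hAe : 0 ≤ A / ε := by positivity
  have hTpos : 0 < T := by
    have := norm_nonneg (y - c)
    linarith
  have hTy : ‖y - c‖ < T := by linarith
  have hAT : A / T ≤ ε := by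
    rw [div_le_iff₀ hTpos]
    have h1 : A / ε * ε = A := div_mul_cancel₀ A hε.ne'
    have h2 : 0 ≤ ε * (‖y - c‖ + 1) := by positivity
    have h3 : ε * T = ε * (‖y - c‖ + 1) + A / ε * ε := by
      rw [hT]
      ring
    linarith
  set Ω : Set E3 := {x | 0 < x 0} ∩ ({x | r < ‖x - c‖} ∩ {x | ‖x - c‖ < T}) with hΩ
  have cn : Continuous (fun x : E3 => ‖x - c‖) := by fun_prop
  have hopen : IsOpen Ω :=
    (isOpen_lt continuous_const cont_coord).inter
      ((isOpen_lt continuous_const cn).inter (isOpen_lt cn continuous_const))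
  have hbdd : Bornology.IsBounded Ω := by
    refine (isBounded_ball (x := c) (r := T)).subset fun x hx => ?_
    rw [mem_ball, dist_eq_norm]
    exact hx.2.2
  have hcl : ∀ x ∈ closure Ω, 0 ≤ x 0 ∧ r ≤ ‖x - c‖ ∧ ‖x - c‖ ≤ T := by
    have hC : IsClosed ({x : E3 | 0 ≤ x 0} ∩ ({x : E3 | r ≤ ‖x - c‖} ∩ {x : E3 | ‖x - c‖ ≤ T})) :=
      (isClosed_le continuous_const cont_coord).inter
        ((isClosed_le continuous_const cn).inter (isClosed_le cn continuous_const))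
    have hsub : Ω ⊆ ({x : E3 | 0 ≤ x 0} ∩ ({x : E3 | r ≤ ‖x - c‖} ∩ {x : E3 | ‖x - c‖ ≤ T})) :=
      fun x hx => ⟨LT.lt.le (show 0 < x 0 from hx.1), LT.lt.le (show r < ‖x - c‖ from hx.2.1),
        LT.lt.le (show ‖x - c‖ < T from hx.2.2)⟩
    intro x hx
    have := hC.closure_subset_iff.2 hsub hx
    exact ⟨this.1, this.2.1, this.2.2⟩
  have hHD : ∀ x : E3, 0 ≤ x 0 → r ≤ ‖x - c‖ →
      HD2 (fun y => w y + ε - A * (‖y - c‖⁻¹ - ‖y - refl 0 c‖⁻¹)) x
        ((fun i => pd i w x) - A • ((fun i => - ((x i - c i) * (‖x - c‖ ^ 3)⁻¹)) -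
          (fun i => - ((x i - refl 0 c i) * (‖x - refl 0 c‖ ^ 3)⁻¹))))
        (Δ w x - A * (0 - 0)) := by
    intro x hx0 hxr
    have h1 : x ≠ c := by
      rintro rfl
      rw [sub_self, norm_zero] at hxr
      linarith
    have h2 : x ≠ refl 0 c := by
      rintro rfl
      rw [refl_zero] at hx0
      linarith
    exact ((HD2.mk' hw.contDiffAt).add_const ε).sub
      (((HD2.newton h1).sub (HD2.newton h2)).const_mul A)
  have key := mp Ω (fun y => w y + ε - A * (‖y - c‖⁻¹ - ‖y - refl 0 c‖⁻¹)) (fun _ => 0) 0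
    hopen hbdd ?_ ?_ ?_ ?_ ?_ y (subset_closure ⟨hy, hyr, hTy⟩)
  · have k2 : 0 ≤ w y + ε - A * (‖y - c‖⁻¹ - ‖y - refl 0 c‖⁻¹) := key
    linarith
  · intro x hx
    obtain ⟨h1, h2, -⟩ := hcl x hx
    exact (hHD x h1 h2).cd.continuousAt.continuousWithinAt
  · intro x hx
    exact (hHD x (le_of_lt hx.1) (le_of_lt hx.2.1)).cd
  · intro x _
    simp
  · intro x hx
    rw [(hHD x (le_of_lt hx.1) (le_of_lt hx.2.1)).lap]
    have := hsup x hx.1
    simp
    exact this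
  · intro x hx
    have hxc := frontier_subset_closure hx
    obtain ⟨h1, h2, h3⟩ := hcl x hxc
    have hnot : x ∉ Ω := by
      have := hx.2
      rwa [hopen.interior_eq] at this
    show 0 ≤ w x + ε - A * (‖x - c‖⁻¹ - ‖x - refl 0 c‖⁻¹)
    have hpos : 0 < ‖x - c‖ := lt_of_lt_of_le hr h2
    have hinv : 0 ≤ ‖x - refl 0 c‖⁻¹ := by positivity
    have hle : A * (‖x - c‖⁻¹ - ‖x - refl 0 c‖⁻¹) ≤ A / ‖x - c‖ := by
      rw [div_eq_mul_inv]
      exact mul_le_mul_of_nonneg_left (by linarith) hA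
    rcases h1.eq_or_lt with h0 | h0
    · have hd := dist_sq_refl x c
      rw [← h0] at hd
      have he : ‖x - refl 0 c‖ = ‖x - c‖ := by
        have h5 : ‖x - refl 0 c‖ ^ 2 = ‖x - c‖ ^ 2 := by linarith
        exact (pow_left_inj₀ (norm_nonneg _) (norm_nonneg _) (by norm_num)).1 h5
      rw [he, sub_self, mul_zero]
      have := hnn x h1
      linarith
    · rcases h2.eq_or_lt with h4 | h4
      · have := hb x h4.symm.le
        have h6 : A / ‖x - c‖ = A / r := by rw [← h4]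
        linarith
      · rcases h3.eq_or_lt with h5 | h5
        · have h6 : A / ‖x - c‖ = A / T := by rw [h5]
          have := hnn x h1
          linarith
        · exact absurd ⟨h0, h4, h5⟩ hnot

/-- the estimate on a ball -/
theorem core (mp : S_MP) {w : E3 → ℝ} (hw : ContDiff ℝ 2 w)
    (hsup : ∀ x : E3, 0 < x 0 → Δ w x ≤ 0) (hnn : ∀ x : E3, 0 ≤ x 0 → 0 ≤ w x)
    {K δ : ℝ} (hδ : 0 < δ) (hKδ : δ ≤ K) (hK1 : 1 ≤ K)
    (hlip : ∀ x y, |w x - w y| ≤ K * ‖x - y‖) {z : E3} (hz0 : 0 ≤ z 0) (hzn : 0 < ‖z‖)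
    (hz : δ * ‖z‖ < w z) {y : E3} (hy0 : 0 ≤ y 0) (hyn : ‖y‖ ≤ ‖z‖) :
    δ ^ 3 / (864 * K ^ 2) * y 0 ≤ w y := by
  have hK : 0 < K := by linarith
  set ρ := ‖z‖ with hρ
  set r : ℝ := δ * ρ / (8 * K) with hr
  have hrpos : 0 < r := by positivity
  have hrK : r * K = δ * ρ / 8 := by
    rw [hr]
    field_simp
  have hr8 : r ≤ ρ / 8 := by
    rw [hr, div_le_div_iff₀ (by positivity) (by norm_num)]
    nlinarith
  set c : E3 := z + (2 * r) • eb 0 with hcd
  have hc0 : c 0 = z 0 + 2 * r := by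
    rw [hcd]
    simp [eb_apply]
  have hcpos : 0 < c 0 := by
    rw [hc0]
    linarith
  have hzc : ‖c - z‖ = 2 * r := by
    rw [hcd, add_sub_cancel_left, norm_smul, norm_eb, mul_one, Real.norm_eq_abs,
      abs_of_pos (by positivity)]
  -- lower bound in the small ball
  have hball : ∀ x : E3, ‖x - c‖ ≤ r → δ * ρ / 2 ≤ w x := by
    intro x hx
    have h1 : ‖z - x‖ ≤ 3 * r := by
      calc ‖z - x‖ = ‖-(c - z) + -(x - c)‖ := by
            congr 1
            abel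
        _ ≤ ‖-(c - z)‖ + ‖-(x - c)‖ := norm_add_le _ _
        _ ≤ 2 * r + r := by
            rw [norm_neg, norm_neg, hzc]
            linarith
        _ = 3 * r := by ring
    have h2 := (abs_le.1 (hlip z x)).2
    have h3 : K * ‖z - x‖ ≤ K * (3 * r) := mul_le_mul_of_nonneg_left h1 hK.le
    have h4 : K * (3 * r) = 3 * (δ * ρ / 8) := by
      rw [← hrK]
      ring
    have h5 : 0 < δ * ρ := by positivity
    linarith
  rcases hy0.eq_or_lt with h0 | h0
  · rw [← h0, mul_zero]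
    exact hnn y hy0
  have hyρ : y 0 ≤ ρ := (le_abs_self _).trans ((abs_coord y).trans hyn)
  by_cases hyr : ‖y - c‖ ≤ r
  · have h1 := hball y hyr
    have h2 : δ ^ 3 / (864 * K ^ 2) ≤ δ / 2 := by
      rw [div_le_div_iff₀ (by positivity) (by norm_num)]
      have h3 : δ ^ 2 ≤ K ^ 2 := by gcongr
      have h4 : δ * δ ^ 2 ≤ δ * K ^ 2 := mul_le_mul_of_nonneg_left h3 hδ.le
      have h5 : 0 ≤ δ * K ^ 2 := by positivity
      nlinarith
    have h6 : δ ^ 3 / (864 * K ^ 2) * y 0 ≤ δ / 2 * ρ :=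
      mul_le_mul h2 hyρ h0.le (by positivity)
    linarith
  rw [not_le] at hyr
  have hA : 0 ≤ δ * ρ / 2 * r := by positivity
  have hcmp := comp_dip mp hw hsup hnn hrpos hcpos hA (fun x hx => by
    rw [mul_div_assoc, div_self hrpos.ne', mul_one]
    exact hball x hx) h0 hyr
  refine le_trans ?_ hcmp
  set p := ‖y - c‖ with hp
  set p' := ‖y - refl 0 c‖ with hp'
  have hpp : 0 < p := by linarith
  have hd : p' ^ 2 - p ^ 2 = 4 * y 0 * c 0 := dist_sq_refl y c
  have hpp' : 0 < p' := by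
    have h1 : 0 < p' ^ 2 := by
      have : 0 < 4 * y 0 * c 0 := by positivity
      nlinarith
    have h2 : 0 ≤ p' := norm_nonneg _
    rcases h2.eq_or_lt with h | h
    · rw [← h] at h1
      norm_num at h1
    · exact h
  have hcn : ‖c‖ ≤ ρ + 2 * r := by
    calc ‖c‖ = ‖z + (c - z)‖ := by
          congr 1
          abel
      _ ≤ ‖z‖ + ‖c - z‖ := norm_add_le _ _
      _ = ρ + 2 * r := by rw [hzc]
  have hcr : ‖refl 0 c‖ = ‖c‖ := by
    have h1 := dist_refl 0 c 0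
    have h2 : refl 0 (0 : E3) = 0 := by
      simp [Pool.Agent.Helper30.BG.refl]
    rw [h2, sub_zero, sub_zero] at h1
    exact h1
  have hp3 : p ≤ 3 * ρ := by
    have := norm_sub_le y c
    linarith
  have hp3' : p' ≤ 3 * ρ := by
    have := norm_sub_le y (refl 0 c)
    rw [hcr] at this
    linarith
  have e1 : p⁻¹ - p'⁻¹ = 4 * y 0 * c 0 / (p * p' * (p + p')) := by
    rw [← hd]
    field_simp
    ring
  have e2 : 4 * y 0 * c 0 / (3 * ρ * (3 * ρ) * (3 * ρ + 3 * ρ)) ≤ p⁻¹ - p'⁻¹ := by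
    rw [e1]
    apply div_le_div_of_nonneg_left
    · positivity
    · positivity
    · gcongr
  have e3 : 4 * y 0 * (2 * r) / (3 * ρ * (3 * ρ) * (3 * ρ + 3 * ρ)) ≤
      4 * y 0 * c 0 / (3 * ρ * (3 * ρ) * (3 * ρ + 3 * ρ)) := by
    apply div_le_div_of_nonneg_right _ (by positivity)
    apply mul_le_mul_of_nonneg_left _ (by positivity)
    rw [hc0]
    linarith
  calc δ ^ 3 / (864 * K ^ 2) * y 0 =
      δ * ρ / 2 * r * (4 * y 0 * (2 * r) / (3 * ρ * (3 * ρ) * (3 * ρ + 3 * ρ))) := by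
        rw [hr]
        field_simp
        ring
    _ ≤ _ := mul_le_mul_of_nonneg_left (e3.trans e2) hA

theorem lems (mp : S_MP) : S_LEMS := by
  intro w K hw hlip hsup hnn hneg δ hδ
  by_contra hcon
  push Not at hcon
  set K' : ℝ := max K (max δ 1) with hK'
  have h1 : K ≤ K' := le_max_left _ _
  have h2 : δ ≤ K' := (le_max_left _ _).trans (le_max_right _ _)
  have h3 : 1 ≤ K' := (le_max_right _ _).trans (le_max_right _ _)
  have hlip' : ∀ x y, |w x - w y| ≤ K' * ‖x - y‖ := fun x y =>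
    (hlip x y).trans (mul_le_mul_of_nonneg_right h1 (norm_nonneg _))
  refine hneg ⟨δ ^ 3 / (864 * K' ^ 2), by positivity, fun y hy => ?_⟩
  obtain ⟨z, hz0, hzR, hz⟩ := hcon (‖y‖ + 1)
  have hyn : ‖y‖ ≤ ‖z‖ := by linarith
  have hzn : 0 < ‖z‖ := by
    have := norm_nonneg y
    linarith
  exact core mp hw hsup hnn hδ h2 h3 hlip' hz0 hzn hz hy hyn

end Pool.Agent.Helper19.BG
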